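import Pool.Agent.Q190.LS.QQ
import Pool.Agent.Q283.LS.Grp
import Pool.Agent.Q283.LS.Stm3

/-! # Project LS (helper283), job BF: Schneider's conjecture at `2` for regular fields -/

set_option autoImplicit false

namespace Pool.Agent.Q14.LS

open NumberField IsDedekindDomain Pool.Agent.Q283.LQ Pool.Agent.Q283.LS Pool.Agent.Q241.LS Pool.Agent.Q190.LS

theorem not_od_sign {F : Type} [Field F] [NumberField F] (v : HeightOneSpectrum (𝓞 F)) (r : ℕ) :
    ¬ Od v ((-1 : F) ^ r * 1) := by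
  rintro ⟨n, hn⟩
  have h1 : v.valuation F ((-1 : F) ^ r * 1) = 1 := by
    rw [mul_one, map_pow, Valuation.map_neg, map_one, one_pow]
  rw [h1, ← WithZero.exp_zero, WithZero.exp_inj] at hn
  omega

theorem not_od_mul {F : Type} [Field F] [NumberField F] (v : HeightOneSpectrum (𝓞 F)) {a b : F}
    (ha : a ≠ 0) (hb : b ≠ 0) (ha' : ¬ Od v a) (hb' : ¬ Od v b) : ¬ Od v (a * b) := by
  rintro ⟨n, hn⟩
  have ha0 : v.valuation F a ≠ 0 := (Valuation.ne_zero_iff _).2 ha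
  have hb0 : v.valuation F b ≠ 0 := (Valuation.ne_zero_iff _).2 hb
  have hca := WithZero.exp_log ha0
  have hcb := WithZero.exp_log hb0
  set x := WithZero.log (v.valuation F a) with hx
  set y := WithZero.log (v.valuation F b) with hy
  rw [map_mul, ← hca, ← hcb, ← WithZero.exp_add, WithZero.exp_inj] at hn
  rcases Int.even_or_odd x with hx' | ⟨m, hm⟩
  · rcases Int.even_or_odd y with hy' | ⟨m, hm⟩
    · obtain ⟨k, hk⟩ := hx'
      obtain ⟨k', hk'⟩ := hy'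
      omega
    · exact hb' ⟨m, by rw [← hcb, hm]⟩
  · exact ha' ⟨m, by rw [← hca, hm]⟩

theorem reg_pair {F : Type} [Field F] [NumberField F] (hreg : Reg F) {e : HeightOneSpectrum (𝓞 F) → F}
    {r : ℕ} {a b : F} (ha : Cond (AE e) ((-1) ^ r * 1) a) (hb : Cond (AE e) ((-1) ^ r * 1) b)
    (hna : ¬ IsSquare a) (hnb : ¬ IsSquare b) : IsSquare (a * b) := by
  have hD : ((-1 : F) ^ r * 1) ≠ 0 := mul_ne_zero (pow_ne_zero _ (neg_ne_zero.2 one_ne_zero)) one_ne_zero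
  have key : ∀ c : F, Cond (AE e) ((-1) ^ r * 1) c → ¬ IsSquare c →
      ∀ v : HeightOneSpectrum (𝓞 F), Dy v → ¬ Lsq v c := by
    intro c hc hnc v hv hl
    refine hnc (hreg.sq c hc.ne (fun w hw => hc.even w hw (not_od_sign w r)) ?_)
    intro w hw
    rw [hreg.one w v hw hv]
    exact hl
  refine hreg.sq (a * b) (mul_ne_zero ha.ne hb.ne) ?_ ?_
  · intro v hv
    exact not_od_mul v ha.ne hb.ne (ha.even v hv (not_od_sign v r)) (hb.even v hv (not_od_sign v r))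
  · intro v hv
    have h1 := key a ha hna v hv
    have h2 := key b hb hnb v hv
    have h3 : ∀ c : F, ¬ Lsq v c → Lsq v ((-1 : F) ^ r * 1) → ¬ Lsq v (c * ((-1) ^ r * 1)) := by
      intro c hc hs hcs
      exact hc (lsq_of v hcs hs hD (by ring))
    rcases (ha.two v hv).2 with h | h | ⟨hs, h⟩
    · exact absurd h h1
    · have hns : ¬ Lsq v ((-1 : F) ^ r * 1) := fun hs => h3 a h1 hs h
      rcases (hb.two v hv).2 with h' | h' | ⟨hs', _⟩
      · exact absurd h' h2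
      · exact lsq_of v h h' hD (by ring)
      · exact absurd hs' hns
    · rcases (hb.two v hv).2 with h' | h' | ⟨_, h'⟩
      · exact absurd h' h2
      · exact absurd h' (h3 b h2 hs)
      · have he : e v ≠ 0 := by
          intro h0
          rw [h0, mul_zero] at h
          exact lsq_ne' v h rfl
        exact lsq_of v h h' he (by ring)

theorem bf (hNT : S_NT) (hLT : S_LT) (hSAT : S_SAT) (hKUM : S_KUM) (hCON : S_CON) : S_BF := by
  classical
  intro Ω _ _ _ _ F _ hreg S r h2 hr hR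
  obtain ⟨f, hfS, hfI⟩ := hR
  obtain ⟨e, he⟩ := hCON Ω F
  set ρ : F.fixingSubgroup → ℤ_[2] := fun σ => chi σ.1 ^ r with hρ
  have hρ' : (fun σ : F.fixingSubgroup => chi σ.1 ^ r * sgn (1 : Ω) σ.1) = ρ := by
    funext σ
    simp [hρ, sgn]
  have hx1 : (1 : Ω) ^ 2 = ((1 : F) : Ω) := by simp
  have hρm : ∀ σ τ, ρ (σ * τ) = ρ σ * ρ τ := by
    intro σ τ
    simp only [hρ]
    change chi (σ.1 * τ.1) ^ r = _
    rw [chi_mul, mul_pow]
  have hρc : Continuous ρ := (chi_cont.comp continuous_subtype_val).pow r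
  have h2ρ : ∀ σ, (2 : ℤ_[2]) ∣ ρ σ - 1 := by
    intro σ
    have h := rho_two σ.2 hx1 r
    have h' : chi σ.1 ^ r * sgn (1 : Ω) σ.1 = ρ σ := congrFun hρ' σ
    rwa [h'] at h
  -- an embedding
  obtain ⟨j⟩ : Nonempty (Ω →ₐ[ℚ] PadicAlgCl 2) := ⟨IsAlgClosed.lift⟩
  obtain ⟨σ0, hσ0F, _, hσ0⟩ := hNT Ω F 2 j.toRingHom r hr
  obtain ⟨h, b0, hb0, hodd⟩ := exists_div (fun σ => ρ σ - 1) (⟨σ0, hσ0F⟩ : F.fixingSubgroup)
    (sub_ne_zero.2 hσ0)
  have hb0' : ∀ σ, ρ σ - 1 = 2 ^ h * b0 σ := hb0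
  have h2h : ((2 : ℤ_[2]) ^ h) ≠ 0 := pow_ne_zero h two_ne_zero
  -- `f` is in `Sel`
  have hfsel : f 0 ∈ Sel ρ := by
    refine ⟨(hfS 0).coc, ?_⟩
    intro l _ j
    by_cases hl : l ∈ S
    · obtain ⟨b, hb⟩ := (hfS 0).loc l hl j
      exact ⟨1, b, one_ne_zero, fun σ hσ => by rw [one_mul]; exact hb σ hσ⟩
    · exact hLT Ω F l j r hr (f 0) (hfS 0).coc (fun σ hσ => (hfS 0).unr l hl j σ hσ)
  have hρsel : (fun σ => ρ σ - 1) ∈ Sel ρ := by
    refine ⟨⟨hρc.sub continuous_const, ?_⟩, ?_⟩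
    · intro σ τ
      rw [hρm]
      ring
    · intro l _ j
      exact ⟨1, 1, one_ne_zero, fun σ _ => by ring⟩
  have hb0sel : b0 ∈ Sel ρ := by
    refine sel_sat h ?_
    have e1 : (2 : ℤ_[2]) ^ h • b0 = fun σ => ρ σ - 1 := by
      funext σ
      simp only [Pi.smul_apply, smul_eq_mul]
      exact (hb0' σ).symm
    rw [e1]
    exact hρsel
  have hli : LinearIndependent ℤ_[2] (Fin.cons (α := fun _ => F.fixingSubgroup → ℤ_[2]) b0 f) := by
    rw [Fintype.linearIndependent_iff]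
    intro c hc
    rw [Fin.sum_univ_succ] at hc
    simp only [Fin.cons_zero, Fin.cons_succ] at hc
    have h1 : (fun k => 2 ^ h * c (Fin.succ k)) = (0 : Fin 1 → ℤ_[2]) := by
      refine hfI (fun k => 2 ^ h * c (Fin.succ k)) ⟨- c 0, ?_⟩
      intro σ
      have h2 := congrFun hc σ
      simp only [Pi.add_apply, Pi.smul_apply, Finset.sum_apply, smul_eq_mul, Pi.zero_apply] at h2
      change ∑ k, 2 ^ h * c (Fin.succ k) * f k σ = (ρ σ - 1) * - c 0
      rw [hb0' σ]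
      have h3 : ∑ k, 2 ^ h * c (Fin.succ k) * f k σ = 2 ^ h * ∑ k, c (Fin.succ k) * f k σ := by
        rw [Finset.mul_sum]
        exact Finset.sum_congr rfl fun k _ => by ring
      rw [h3]
      linear_combination 2 ^ h * h2
    have h2 : ∀ k, c (Fin.succ k) = 0 := by
      intro k
      have h3 := congrFun h1 k
      simp only [Pi.zero_apply] at h3
      exact (mul_eq_zero.1 h3).resolve_left h2h
    have h3 : c 0 = 0 := by
      obtain ⟨σ, hσ⟩ := hodd
      have h4 := congrFun hc σ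
      simp only [Pi.add_apply, Pi.smul_apply, Finset.sum_apply, smul_eq_mul, Pi.zero_apply, h2,
        zero_mul, Finset.sum_const_zero, add_zero] at h4
      refine (mul_eq_zero.1 h4).resolve_right ?_
      intro h5
      rw [h5] at hσ
      exact hσ (dvd_zero _)
    intro k
    refine Fin.cases h3 h2 k
  obtain ⟨b, m, hb1, hb2⟩ := hSAT F.fixingSubgroup 1 b0 f hli hodd
  have hbsel : b 0 ∈ Sel ρ := by
    refine sel_sat m ?_
    refine (Submodule.span_le.2 ?_) (hb1 0)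
    intro f' hf'
    rcases hf' with rfl | ⟨k, rfl⟩
    · exact hb0sel
    · have : k = 0 := Subsingleton.elim _ _
      rw [this]
      exact hfsel
  -- quadratic characters
  have hq : ∀ w : F.fixingSubgroup → ℤ_[2], w ∈ Sel ρ → ∃ (a : F) (y : Ω), a ≠ 0 ∧ y ^ 2 = (a : Ω) ∧
      Cond (AE e) ((-1) ^ r * 1) a ∧ ∀ σ : F.fixingSubgroup, (2 : ℤ_[2]) ∣ w σ ↔ σ.1 y = y := by
    intro w hw
    have h2 : InSel ρ w := hw
    obtain ⟨a, y, ha, hy, hay⟩ := hKUM Ω F w h2.coc.cont (by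
      intro σ τ
      rw [h2.coc.coc σ τ]
      obtain ⟨c, hc⟩ := h2ρ σ
      refine ⟨c * w τ, ?_⟩
      linear_combination (w τ) * hc)
    refine ⟨a, y, ha, hy, ?_, hay⟩
    exact he r 1 1 hr one_ne_zero hx1 w (by rw [hρ']; exact h2) a y ha hy hay
  obtain ⟨a0, y0, ha0, hy0, hc0, hay0⟩ := hq b0 hb0sel
  obtain ⟨a1, y1, ha1, hy1, hc1, hay1⟩ := hq (b 0) hbsel
  have hns0 : ¬ IsSquare a0 := by
    intro hsq
    obtain ⟨σ, hσ⟩ := hodd
    exact hσ ((hay0 σ).2 (fix_of_isSquare σ.2 hy0 hsq))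
  have hns1 : ¬ IsSquare a1 := by
    intro hsq
    have h1 := (hb2 0 (fun _ => 1) (by
      intro σ
      have h3 : (2 : ℤ_[2]) ∣ b 0 σ := (hay1 σ).2 (fix_of_isSquare σ.2 hy1 hsq)
      simpa [ZMod.val_one] using h3)).2
    exact one_ne_zero (congrFun h1 0)
  have hsq : IsSquare (a0 * a1) := reg_pair hreg hc0 hc1 hns0 hns1
  have hyn0 : ∀ {a : F} {y : Ω}, a ≠ 0 → y ^ 2 = (a : Ω) → y ≠ 0 := by
    rintro a y ha hy rfl
    apply ha
    have h2 : ((a : F) : Ω) = 0 := by rw [← hy]; ring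
    exact_mod_cast h2
  have hpar : ∀ σ : F.fixingSubgroup, (2 : ℤ_[2]) ∣ b0 σ + b 0 σ := by
    intro σ
    rw [par_mul σ.2 hy0 hy1 (hyn0 ha0 hy0) (hyn0 ha1 hy1) (hay0 σ) (hay1 σ)]
    refine fix_of_isSquare σ.2 ?_ hsq
    rw [mul_pow, hy0, hy1]
    push_cast
    rfl
  have h1 := (hb2 1 (fun _ => 1) (by
    intro σ
    simpa [ZMod.val_one] using hpar σ)).1
  exact absurd h1 (by decide)

end Pool.Agent.Q14.LS
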